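import Pool.Agent.H66.IP.TB
import Pool.Agent.H47.EH.RCP

/-!
# MP_0f8dca_lc, row CPU: replacement of independent copies
-/

set_option autoImplicit false

namespace Pool.Agent.H1.IP

open Finset Function Pool.Agent.H47.EH

/-- CPU: replacement of independent copies. -/
theorem pf_CPU : Pool.Agent.H66.IP.T_CPU := by
  intro U T _ _ _ _ a b F η ha hb ha1 hb1 H
  have key : ∀ A : Finset U, |∑ P, wt a b A P * F P - ∑ P, wt a b ∅ P * F P| ≤
      (A.card : ℝ) * η := by
    intro A
    induction A using Finset.induction_on with
    | empty => simp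
    | insert u0 A h0 ih =>
      have hs : |∑ P, wt a b (insert u0 A) P * F P - ∑ P, wt a b A P * F P| ≤ η := by
        rw [sum_ins a b hb1 A u0 h0 F, sum_wt a b hb1 A u0 h0 F, ← sum_sub_distrib]
        calc |∑ P, (wt a b A P * ∑ p, a p * F (update P u0 p) -
              wt a b A P * ∑ p, b p * F (update P u0 p))|
            ≤ ∑ P, |wt a b A P * ∑ p, a p * F (update P u0 p) -
              wt a b A P * ∑ p, b p * F (update P u0 p)| := abs_sum_le_sum_abs _ _
          _ ≤ ∑ P, wt a b A P * η := by
              refine sum_le_sum fun P _ => ?_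
              rw [← mul_sub, abs_mul, abs_of_nonneg (wt_nonneg a b ha hb A P)]
              exact mul_le_mul_of_nonneg_left (H P u0) (wt_nonneg a b ha hb A P)
          _ = η := by rw [← sum_mul, sum_one a b ha1 hb1, one_mul]
      rw [card_insert_of_notMem h0]
      push_cast
      have h3 := abs_add_le (∑ P, wt a b (insert u0 A) P * F P - ∑ P, wt a b A P * F P)
        (∑ P, wt a b A P * F P - ∑ P, wt a b ∅ P * F P)
      rw [sub_add_sub_cancel] at h3
      linarith
  have h := key univ
  have h0 : ∀ P : U → T, wt a b ∅ P = ∏ u, b (P u) := by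
    intro P; unfold wt; simp
  have h1 : ∀ P : U → T, wt a b univ P = ∏ u, a (P u) := by
    intro P; unfold wt; simp
  simp only [h0, h1, card_univ] at h
  exact h

end Pool.Agent.H1.IP
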